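import Mathlib
import Pool.Agent.U581.LB.Stm
import Pool.Agent.U581.LB.Stm2
import Pool.Agent.N48.Ann.NT2

/-!
Project LB, package RS3: the mean square of `r(n)` from the convolution identity.
-/

set_option autoImplicit false

open Real Filter Topology

namespace Pool.Agent.U723.LB.RS3

open Pool.Agent.U581.LB

lemma hh_zero : hh 0 = 0 := by simp [hh]

/-- the odd part -/
noncomputable def g1 (c : ℕ) : ℝ :=
  if c % 2 = 1 then (if IsSquare c then ((ArithmeticFunction.moebius (Nat.sqrt c) : ℤ) : ℝ) else 0) else 0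

/-- the even part -/
noncomputable def g2 (c : ℕ) : ℝ :=
  if c % 4 = 2 ∧ IsSquare (c / 2) then -((ArithmeticFunction.moebius (Nat.sqrt (c / 2)) : ℤ) : ℝ) else 0

lemma hh_eq (c : ℕ) : hh c = g1 c + g2 c := by
  unfold hh g1 g2
  by_cases h : c % 2 = 1
  · rw [if_pos h, if_pos h, if_neg (by omega : ¬ (c % 4 = 2 ∧ IsSquare (c / 2)))]
    ring
  · rw [if_neg h, if_neg h]
    ring

lemma sq_mod (m : ℕ) : m ^ 2 % 2 = 1 ↔ m % 2 = 1 := by
  rcases Nat.mod_two_eq_zero_or_one m with h | h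
  · simp [Nat.pow_mod, h]
  · simp [Nat.pow_mod, h]

lemma sq_mod4 (m : ℕ) : 2 * m ^ 2 % 4 = 2 ↔ m % 2 = 1 := by
  rw [← sq_mod m]
  omega

lemma g1_sq (m : ℕ) : g1 (m ^ 2) = if m % 2 = 1 then ((ArithmeticFunction.moebius m : ℤ) : ℝ) else 0 := by
  unfold g1
  by_cases h : m % 2 = 1
  · rw [if_pos ((sq_mod m).2 h), if_pos h, if_pos ⟨m, by ring⟩, Nat.sqrt_eq']
  · rw [if_neg (fun h' => h ((sq_mod m).1 h')), if_neg h]

lemma g2_sq (m : ℕ) : g2 (2 * m ^ 2) = if m % 2 = 1 then -((ArithmeticFunction.moebius m : ℤ) : ℝ) else 0 := by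
  unfold g2
  have e : 2 * m ^ 2 / 2 = m ^ 2 := by omega
  rw [e]
  by_cases h : m % 2 = 1
  · rw [if_pos ⟨(sq_mod4 m).2 h, m, by ring⟩, if_pos h, Nat.sqrt_eq']
  · rw [if_neg (fun h' => h ((sq_mod4 m).1 h'.1)), if_neg h]

lemma g1_out (c : ℕ) (hc : c ∉ Set.range (fun m : ℕ => m ^ 2)) : g1 c = 0 := by
  unfold g1
  have : ¬ IsSquare c := by
    rintro ⟨m, hm⟩
    exact hc ⟨m, by simp only; rw [hm]; ring⟩
  simp [this]

lemma g2_out (c : ℕ) (hc : c ∉ Set.range (fun m : ℕ => 2 * m ^ 2)) : g2 c = 0 := by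
  unfold g2
  rw [if_neg]
  rintro ⟨h1, m, hm⟩
  exact hc ⟨m, by simp only; rw [pow_two, ← hm]; omega⟩

lemma inj1 : Function.Injective (fun m : ℕ => m ^ 2) := fun a b h => by
  simp only at h
  exact Nat.pow_left_injective (by norm_num : 2 ≠ 0) h

lemma inj2 : Function.Injective (fun m : ℕ => 2 * m ^ 2) := fun a b h => by
  simp only at h
  exact Nat.pow_left_injective (by norm_num : 2 ≠ 0) (by simp only; omega)

lemma mu_le (m : ℕ) : |((ArithmeticFunction.moebius m : ℤ) : ℝ)| ≤ 1 := by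
  rw [← Int.cast_abs]
  exact_mod_cast ArithmeticFunction.abs_moebius_le_one

/-- summability -/
lemma summ : Summable (fun c : ℕ => |hh c| * (c : ℝ) ^ (-(3 / 4) : ℝ)) := by
  have h32 : Summable (fun m : ℕ => (m : ℝ) ^ (-(3 / 2) : ℝ)) :=
    Real.summable_nat_rpow.2 (by norm_num)
  have h1 : Summable (fun c : ℕ => |g1 c| * (c : ℝ) ^ (-(3 / 4) : ℝ)) := by
    rw [← inj1.summable_iff]
    · refine Summable.of_nonneg_of_le (fun m => by simp only [Function.comp]; positivity) (fun m => ?_) h32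
      simp only [Function.comp]
      have e : ((m ^ 2 : ℕ) : ℝ) ^ (-(3 / 4) : ℝ) = (m : ℝ) ^ (-(3 / 2) : ℝ) := by
        push_cast
        rw [← Real.rpow_natCast, ← Real.rpow_mul (by positivity)]
        norm_num
      rw [e, g1_sq]
      have h3 : 0 ≤ (m : ℝ) ^ (-(3 / 2) : ℝ) := by positivity
      split_ifs
      · nlinarith [mu_le m]
      · simpa using h3
    · intro c hc
      rw [g1_out c hc]; simp
  have h2 : Summable (fun c : ℕ => |g2 c| * (c : ℝ) ^ (-(3 / 4) : ℝ)) := by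
    rw [← inj2.summable_iff]
    · refine Summable.of_nonneg_of_le (fun m => by simp only [Function.comp]; positivity) (fun m => ?_) h32
      simp only [Function.comp]
      have e : ((2 * m ^ 2 : ℕ) : ℝ) ^ (-(3 / 4) : ℝ) ≤ (m : ℝ) ^ (-(3 / 2) : ℝ) := by
        push_cast
        rw [Real.mul_rpow (by norm_num) (by positivity), ← Real.rpow_natCast, ← Real.rpow_mul (by positivity)]
        have h5 : (2 : ℝ) ^ (-(3 / 4) : ℝ) ≤ 1 := Real.rpow_le_one_of_one_le_of_nonpos (by norm_num) (by norm_num)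
        have h6 : ((m : ℝ) ^ (((2 : ℕ) : ℝ) * (-(3 / 4)) : ℝ)) = (m : ℝ) ^ (-(3 / 2) : ℝ) := by norm_num
        rw [h6]
        have h7 : 0 ≤ (m : ℝ) ^ (-(3 / 2) : ℝ) := by positivity
        nlinarith
      have h0 : 0 ≤ ((2 * m ^ 2 : ℕ) : ℝ) ^ (-(3 / 4) : ℝ) := by positivity
      rw [g2_sq]
      split_ifs
      · rw [abs_neg]
        nlinarith [mu_le m, abs_nonneg ((ArithmeticFunction.moebius m : ℤ) : ℝ)]
      · simpa using h0.trans e
    · intro c hc
      rw [g2_out c hc]; simp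
  refine Summable.of_nonneg_of_le (fun m => by positivity) (fun m => ?_) (h1.add h2)
  rw [hh_eq, ← add_mul]
  gcongr
  exact abs_add_le _ _

lemma hsum : HasSum (fun c : ℕ => hh c / c) (4 / π ^ 2) := by
  have h1 : HasSum (fun c : ℕ => g1 c / c) (8 / π ^ 2) := by
    rw [← inj1.hasSum_iff]
    · refine Pool.Agent.N48.Ann.mu_odd.congr_fun ?_
      intro m
      simp only [Function.comp]
      rw [g1_sq]
      push_cast
      split_ifs <;> simp
    · intro c hc
      rw [g1_out c hc]; simp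
  have h2 : HasSum (fun c : ℕ => g2 c / c) (-(1 / 2) * (8 / π ^ 2)) := by
    rw [← inj2.hasSum_iff]
    · refine (Pool.Agent.N48.Ann.mu_odd.mul_left (-(1 / 2) : ℝ)).congr_fun ?_
      intro m
      simp only [Function.comp]
      rw [g2_sq]
      push_cast
      split_ifs
      · field_simp
      · simp
    · intro c hc
      rw [g2_out c hc]; simp
  have h3 := h1.add h2
  have e : 8 / π ^ 2 + -(1 / 2) * (8 / π ^ 2) = 4 / π ^ 2 := by ring
  rw [e] at h3
  refine h3.congr_fun ?_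
  intro c
  rw [hh_eq]
  ring

/-- the bound for the weights -/
lemma wt (c : ℕ) (hc : 1 ≤ c) : (1 + log c) / c ≤ 5 * (c : ℝ) ^ (-(3 / 4) : ℝ) := by
  have h0 : (1 : ℝ) ≤ c := by exact_mod_cast hc
  have h1 := Real.log_le_rpow_div (by positivity : (0 : ℝ) ≤ c) (by norm_num : (0 : ℝ) < 1 / 4)
  have h2 : (1 : ℝ) ≤ (c : ℝ) ^ (1 / 4 : ℝ) := Real.one_le_rpow h0 (by norm_num)
  have h3 : 1 + log c ≤ 5 * (c : ℝ) ^ (1 / 4 : ℝ) := by
    have : (c : ℝ) ^ (1 / 4 : ℝ) / (1 / 4) = 4 * (c : ℝ) ^ (1 / 4 : ℝ) := by ring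
    linarith
  rw [div_le_iff₀ (by positivity)]
  refine h3.trans (le_of_eq ?_)
  rw [mul_assoc]
  congr 1
  nth_rewrite 3 [← Real.rpow_one (c : ℝ)]
  rw [← Real.rpow_add (by positivity)]
  norm_num

/-- the sum over the pairs -/
lemma conv (X : ℕ) : ∑ n ∈ Finset.Icc 1 X, ∑ x ∈ n.divisorsAntidiagonal,
      hh x.1 * ∑ y ∈ x.2.divisorsAntidiagonal, r0 y.1 * r0 y.2 =
    ∑ c ∈ Finset.Icc 1 X, hh c * ∑ n ∈ Finset.Icc 1 (X / c), ∑ y ∈ n.divisorsAntidiagonal,
      r0 y.1 * r0 y.2 := by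
  let F : ArithmeticFunction ℝ := ⟨hh, hh_zero⟩
  let D : ArithmeticFunction ℝ :=
    ⟨fun n => ∑ y ∈ n.divisorsAntidiagonal, r0 y.1 * r0 y.2, by simp⟩
  have h := ArithmeticFunction.sum_Ioc_mul_eq_sum_sum F D X
  simp only [ArithmeticFunction.mul_apply] at h
  exact h

/-- the floor -/
lemma fl (X c : ℕ) (hc : 1 ≤ c) (hX : c ≤ X) :
    |((X / c : ℕ) : ℝ) * log ((X / c : ℕ) : ℝ) - X / c * log (X / c)| ≤ X / c := by
  set Y : ℕ := X / c with hY
  have hc0 : (0 : ℝ) < c := by exact_mod_cast hc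
  have h1 : 1 ≤ Y := by
    rw [hY]; exact (Nat.one_le_div_iff (by omega)).2 hX
  have h2 : (Y : ℝ) ≤ X / c := Nat.cast_div_le
  have h3 : (X : ℝ) / c ≤ Y + 1 := by
    rw [div_le_iff₀ hc0]
    have := Nat.lt_mul_div_succ X (by omega : 0 < c)
    have h4 : X ≤ (Y + 1) * c := by
      rw [mul_comm]; exact this.le
    exact_mod_cast h4
  have h5 : (1 : ℝ) ≤ Y := by exact_mod_cast h1
  set x : ℝ := X / c with hx
  have hx1 : 1 ≤ x := h5.trans h2
  have h6 : log Y ≤ log x := Real.log_le_log (by linarith) h2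
  have h7 : 0 ≤ log (Y : ℝ) := Real.log_nonneg h5
  have h8 : log x - log Y ≤ (x - Y) / Y := by
    rw [← Real.log_div (by linarith) (by linarith)]
    have := Real.log_le_sub_one_of_pos (show 0 < x / Y by positivity)
    have e : (x - Y) / Y = x / Y - 1 := by
      rw [sub_div, div_self (by linarith)]
    rw [e]; exact this
  have h9 : Y * (log x - log Y) ≤ x - Y := by
    have := mul_le_mul_of_nonneg_left h8 (by linarith : (0 : ℝ) ≤ Y)
    rwa [mul_div_cancel₀ _ (by linarith)] at this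
  have h10 : log x ≤ x - 1 := Real.log_le_sub_one_of_pos (by linarith)
  have h11 : 0 ≤ log x := Real.log_nonneg hx1
  rw [abs_le]
  constructor
  · nlinarith
  · nlinarith

theorem t_RS3 : S_RS3 := by
  intro h1 h2
  obtain ⟨C, hC⟩ := h2
  have hC0 : 0 ≤ C := by
    have := (abs_nonneg _).trans (hC 1 le_rfl)
    simpa using this
  unfold S_RS
  -- the constant
  have hsum5 : Summable (fun c : ℕ => |hh c| * (5 * (c : ℝ) ^ (-(3 / 4) : ℝ))) := by
    refine (summ.mul_left 5).congr ?_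
    intro c; ring
  set K : ℝ := ∑' c : ℕ, |hh c| * (5 * (c : ℝ) ^ (-(3 / 4) : ℝ)) with hK
  have hwt : ∀ X : ℕ, ∑ c ∈ Finset.Icc 1 X, |hh c| * ((1 + log c) / c) ≤ K := by
    intro X
    refine (Finset.sum_le_sum (fun c hc => ?_)).trans (hsum5.sum_le_tsum (Finset.Icc 1 X) (fun c _ => by positivity))
    exact mul_le_mul_of_nonneg_left (wt c (Finset.mem_Icc.1 hc).1) (abs_nonneg _)
  have hK0 : 0 ≤ K := tsum_nonneg fun c => by positivity
  -- the main estimate
  have key : ∀ X : ℕ, 1 ≤ X → |∑ n ∈ Finset.Icc 1 X, r0 n ^ 2 -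
      π ^ 2 / 16 * (∑ c ∈ Finset.Icc 1 X, hh c / c) * (X * log X)| ≤ (C + 2 * (π ^ 2 / 16)) * K * X := by
    intro X hX
    have hX0 : (0 : ℝ) < X := by exact_mod_cast hX
    have e1 : ∑ n ∈ Finset.Icc 1 X, r0 n ^ 2 = ∑ c ∈ Finset.Icc 1 X, hh c *
        ∑ n ∈ Finset.Icc 1 (X / c), ∑ y ∈ n.divisorsAntidiagonal, r0 y.1 * r0 y.2 := by
      rw [← conv]
      exact Finset.sum_congr rfl fun n hn => h1 n (Finset.mem_Icc.1 hn).1
    have e2 : π ^ 2 / 16 * (∑ c ∈ Finset.Icc 1 X, hh c / c) * (X * log X) =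
        ∑ c ∈ Finset.Icc 1 X, hh c * (π ^ 2 / 16 * (X / c * log X)) := by
      rw [Finset.mul_sum, Finset.sum_mul]
      exact Finset.sum_congr rfl fun c _ => by ring
    rw [e1, e2, ← Finset.sum_sub_distrib]
    refine (Finset.abs_sum_le_sum_abs _ _).trans ?_
    have h3 : ∀ c ∈ Finset.Icc 1 X, |hh c * (∑ n ∈ Finset.Icc 1 (X / c), ∑ y ∈ n.divisorsAntidiagonal,
        r0 y.1 * r0 y.2) - hh c * (π ^ 2 / 16 * (X / c * log X))| ≤
        (C + 2 * (π ^ 2 / 16)) * X * (|hh c| * ((1 + log c) / c)) := by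
      intro c hc
      obtain ⟨hc1, hcX⟩ := Finset.mem_Icc.1 hc
      have hc0 : (1 : ℝ) ≤ c := by exact_mod_cast hc1
      have hcp : (0 : ℝ) < c := by linarith
      rw [← mul_sub, abs_mul]
      have hY : 1 ≤ X / c := (Nat.one_le_div_iff (by omega)).2 hcX
      have a1 := hC (X / c) hY
      have a2 := fl X c hc1 hcX
      have a3 : ((X / c : ℕ) : ℝ) ≤ X / c := Nat.cast_div_le
      have a4 : log ((X : ℝ) / c) = log X - log c := Real.log_div hX0.ne' hcp.ne'
      have a5 : 0 ≤ log (c : ℝ) := Real.log_nonneg hc0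
      set G : ℝ := ∑ n ∈ Finset.Icc 1 (X / c), ∑ y ∈ n.divisorsAntidiagonal, r0 y.1 * r0 y.2 with hG
      have a6 : |G - π ^ 2 / 16 * (X / c * log X)| ≤
          C * (X / c) + π ^ 2 / 16 * (X / c) + π ^ 2 / 16 * (X / c * log c) := by
        have d1 : G - π ^ 2 / 16 * (X / c * log X) =
            (G - π ^ 2 / 16 * (((X / c : ℕ) : ℝ) * log ((X / c : ℕ) : ℝ))) +
            π ^ 2 / 16 * (((X / c : ℕ) : ℝ) * log ((X / c : ℕ) : ℝ) - X / c * log (X / c)) -
            π ^ 2 / 16 * (X / c * log c) := by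
          rw [a4]; ring
        rw [d1]
        refine (abs_sub _ _).trans ?_
        have d2 : |π ^ 2 / 16 * ((X : ℝ) / c * log c)| = π ^ 2 / 16 * (X / c * log c) :=
          abs_of_nonneg (by positivity)
        rw [d2]
        refine add_le_add ((abs_add_le _ _).trans (add_le_add (a1.trans ?_) ?_)) le_rfl
        · exact mul_le_mul_of_nonneg_left a3 hC0
        · rw [abs_mul, abs_of_nonneg (by positivity : 0 ≤ π ^ 2 / 16)]
          exact mul_le_mul_of_nonneg_left a2 (by positivity)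
      have a7 : C * ((X : ℝ) / c) + π ^ 2 / 16 * (X / c) + π ^ 2 / 16 * (X / c * log c) ≤
          (C + 2 * (π ^ 2 / 16)) * X * ((1 + log c) / c) := by
        have d3 : (C + 2 * (π ^ 2 / 16)) * X * ((1 + log c) / c) =
            C * ((X : ℝ) / c) + π ^ 2 / 16 * (X / c) + π ^ 2 / 16 * (X / c * log c) +
            (C * ((X : ℝ) / c * log c) + π ^ 2 / 16 * (X / c) + π ^ 2 / 16 * (X / c * log c)) := by
          field_simp
          ring
        rw [d3]
        have : 0 ≤ C * ((X : ℝ) / c * log c) + π ^ 2 / 16 * (X / c) + π ^ 2 / 16 * (X / c * log c) := by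
          positivity
        linarith
      calc |hh c| * |G - π ^ 2 / 16 * (X / c * log X)|
          ≤ |hh c| * ((C + 2 * (π ^ 2 / 16)) * X * ((1 + log c) / c)) :=
            mul_le_mul_of_nonneg_left (a6.trans a7) (abs_nonneg _)
        _ = _ := by ring
    refine (Finset.sum_le_sum h3).trans ?_
    rw [← Finset.mul_sum]
    have h4 := hwt X
    have h5 : 0 ≤ (C + 2 * (π ^ 2 / 16)) * X := by positivity
    calc _ ≤ (C + 2 * (π ^ 2 / 16)) * X * K := mul_le_mul_of_nonneg_left h4 h5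
      _ = _ := by ring
  -- the limit
  have hlim1 : Tendsto (fun X : ℕ => ∑ c ∈ Finset.Icc 1 X, hh c / c) atTop (𝓝 (4 / π ^ 2)) := by
    have h := hsum.tendsto_sum_nat
    have h' := h.comp (tendsto_add_atTop_nat 1)
    refine h'.congr ?_
    intro X
    simp only [Function.comp]
    rw [Finset.range_eq_Ico, ← Finset.sum_subset (s₁ := Finset.Icc 1 X)]
    · intro c hc
      have := Finset.mem_Icc.1 hc
      exact Finset.mem_Ico.2 ⟨by omega, by omega⟩
    · intro c hc hc'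
      have h1 := Finset.mem_Ico.1 hc
      have : c = 0 := by
        by_contra h0
        exact hc' (Finset.mem_Icc.2 ⟨by omega, by omega⟩)
      subst this
      simp
  have hlog : Tendsto (fun X : ℕ => (log (X : ℝ))⁻¹) atTop (𝓝 0) :=
    (Real.tendsto_log_atTop.comp tendsto_natCast_atTop_atTop).inv_tendsto_atTop
  have hdiff : Tendsto (fun X : ℕ => (∑ n ∈ Finset.Icc 1 X, r0 n ^ 2) / (X * log X) -
      π ^ 2 / 16 * (∑ c ∈ Finset.Icc 1 X, hh c / c)) atTop (𝓝 0) := by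
    have hb : Tendsto (fun X : ℕ => (C + 2 * (π ^ 2 / 16)) * K * (log (X : ℝ))⁻¹) atTop (𝓝 0) := by
      simpa using hlog.const_mul ((C + 2 * (π ^ 2 / 16)) * K)
    refine squeeze_zero_norm' ?_ hb
    filter_upwards [eventually_ge_atTop 3] with X hX
    have hX0 : (0 : ℝ) < X := by
      have : 0 < X := by omega
      exact_mod_cast this
    have hX3 : (1 : ℝ) < X := by
      have : 1 < X := by omega
      exact_mod_cast this
    have hl : 0 < log (X : ℝ) := Real.log_pos hX3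
    have h := key X (by omega)
    rw [Real.norm_eq_abs]
    have e : (∑ n ∈ Finset.Icc 1 X, r0 n ^ 2) / (X * log X) - π ^ 2 / 16 * (∑ c ∈ Finset.Icc 1 X, hh c / c) =
        (∑ n ∈ Finset.Icc 1 X, r0 n ^ 2 - π ^ 2 / 16 * (∑ c ∈ Finset.Icc 1 X, hh c / c) * (X * log X)) /
          (X * log X) := by
      field_simp
    rw [e, abs_div, abs_of_pos (by positivity : 0 < (X : ℝ) * log X), div_le_iff₀ (by positivity)]
    refine h.trans (le_of_eq ?_)
    field_simp
  have hfin := (hdiff.add (hlim1.const_mul (π ^ 2 / 16))).const_mul 16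
  have e3 : 16 * ((0 : ℝ) + π ^ 2 / 16 * (4 / π ^ 2)) = 4 := by
    have := Real.pi_pos.ne'
    field_simp
    norm_num
  rw [e3] at hfin
  refine hfin.congr ?_
  intro X
  have e4 : ∑ n ∈ Finset.Icc 1 X, r2 n ^ 2 = 16 * ∑ n ∈ Finset.Icc 1 X, r0 n ^ 2 := by
    rw [Finset.mul_sum]
    refine Finset.sum_congr rfl fun n _ => ?_
    unfold r0; ring
  rw [e4]
  ring

end Pool.Agent.U723.LB.RS3
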